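import Pool.Agent.K3h20.FB.Stm3
import Pool.Agent.K3h33.FB.Ddg

/-!
# Irreducible CM fields and Galois closures (brick CLO for helper20, a variation of helper33's DDG)
-/

set_option autoImplicit false
set_option linter.unusedSectionVars false

open Polynomial NumberField

namespace Pool.Agent.K3h68.FB

open Pool.Agent.K3h20.FB Pool.Agent.K3h33.FB

/-- CLO -/
theorem t_CLO : S_CLO := by
  classical
  intro p a hp ha E E' _ _ _ _ _ _ hE' hg π π' hint hint' hn hn' A hA hodd z w hz hw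
  obtain ⟨φ, rfl⟩ := exists_emb hint hz
  obtain ⟨ψ, rfl⟩ := exists_emb hint' hw
  obtain ⟨g, hgE, ψ₁, y, hy⟩ := hg
  right
  right
  have hcc : ∀ φ : E' →+* ℂ, ComplexEmbedding.conjugate (ComplexEmbedding.conjugate φ) = φ :=
    ComplexEmbedding.involutive_conjugate E'
  have hne : ∀ ψ : E' →+* ℂ, ComplexEmbedding.conjugate ψ ≠ ψ := by
    intro ψ h0
    exact IsTotallyComplex.complexEmbedding_not_isReal ψ (ComplexEmbedding.isReal_iff.2 h0)
  have hA2 : ∀ (φ : E →+* ℂ) (ψ : E' →+* ℂ),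
      A (φ π) (ComplexEmbedding.conjugate ψ π') = -A (φ π) (ψ π') := by
    intro φ ψ
    rw [conj_val hp hn']
    exact (hodd _ _ (rt_emb π φ) (rt_emb π' ψ)).2
  -- the odd function of an embedding
  set m0 : (E' →+* ℂ) → (E' →+* ℂ) → ℚ := fun ψ χ => (if χ = ψ then 1 else 0) -
    (if χ = ComplexEmbedding.conjugate ψ then 1 else 0) with hm0
  have hm0odd : ∀ ψ χ, m0 ψ (ComplexEmbedding.conjugate χ) = -m0 ψ χ := by
    intro ψ χ
    have e1 : ComplexEmbedding.conjugate χ = ψ ↔ χ = ComplexEmbedding.conjugate ψ :=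
      ⟨fun h => by rw [← h, hcc], fun h => by rw [h, hcc]⟩
    have e2 : ComplexEmbedding.conjugate χ = ComplexEmbedding.conjugate ψ ↔ χ = ψ :=
      ⟨fun h => by rw [← hcc χ, h, hcc], fun h => by rw [h]⟩
    simp only [hm0, e1, e2]
    ring
  have hcomp : ∀ (g : ℂ ≃+* ℂ) (m : (E' →+* ℂ) → ℚ),
      (∀ χ, m (ComplexEmbedding.conjugate χ) = -m χ) →
      ∀ χ, (fun ψ : E' →+* ℂ => m ((g : ℂ →+* ℂ).comp ψ)) (ComplexEmbedding.conjugate χ) =
        -(fun ψ : E' →+* ℂ => m ((g : ℂ →+* ℂ).comp ψ)) χ := by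
    intro g m hm χ
    beta_reduce
    rw [comp_conj, hm]
  set O' : Submodule ℚ ((E' →+* ℂ) → ℚ) := Od ComplexEmbedding.conjugate with hO'
  set T := TT A π π' with hT
  rcases hE' (O' ⊓ LinearMap.ker T) (fun m hm => hm.1) (by
    intro g m hm
    refine ⟨hcomp g m hm.1, ?_⟩
    rw [SetLike.mem_coe, LinearMap.mem_ker]
    funext φ
    have h1 := TT_comp A hA π π' m g φ
    have h2 : T m = 0 := hm.2
    rw [← hT] at h1
    rw [h1, h2]
    rfl) with hker | hker
  · -- the map is injective on the odd functions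
    exfalso
    have h1 : (fun χ : E' →+* ℂ => m0 ψ₁ ((g : ℂ →+* ℂ).comp χ)) - m0 ψ₁ ∈
        O' ⊓ LinearMap.ker T := by
      refine ⟨Submodule.sub_mem _ (hcomp g (m0 ψ₁) (hm0odd ψ₁)) (hm0odd ψ₁), ?_⟩
      rw [SetLike.mem_coe, LinearMap.mem_ker, map_sub, sub_eq_zero]
      funext φ
      have h2 := TT_comp A hA π π' (m0 ψ₁) g φ
      rw [← hT] at h2
      have h6 : (g : ℂ →+* ℂ).comp φ = φ := RingHom.ext fun x => hgE φ x
      rw [h2, h6]
    rw [hker, Submodule.mem_bot, sub_eq_zero] at h1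
    have h3 := congrFun h1 ψ₁
    simp only [hm0, if_true, if_neg (hne ψ₁).symm, sub_zero] at h3
    have h4 : (g : ℂ →+* ℂ).comp ψ₁ = ψ₁ := by
      by_contra h5
      rw [if_neg h5] at h3
      split_ifs at h3 <;> norm_num at h3
    have h5 := DFunLike.congr_fun h4 y
    exact hy h5
  · -- the map vanishes on the odd functions
    have h1 := (hker (m0 ψ) (hm0odd ψ)).2
    have h2 : T (m0 ψ) φ = 0 := by
      have h3 : T (m0 ψ) = 0 := h1
      rw [h3]
      rfl
    rw [hT, TT_apply] at h2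
    have h3 : ∑ χ : E' →+* ℂ, A (φ π) (χ π') * m0 ψ χ =
        A (φ π) (ψ π') - A (φ π) (ComplexEmbedding.conjugate ψ π') := by
      simp only [hm0, mul_sub, Finset.sum_sub_distrib, mul_ite, mul_one, mul_zero]
      rw [Finset.sum_ite_eq', Finset.sum_ite_eq', if_pos (Finset.mem_univ _),
        if_pos (Finset.mem_univ _)]
    rw [h3, hA2] at h2
    linarith

end Pool.Agent.K3h68.FB
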